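import Pool.Agent.Lead.Star.Main

open Pool.Agent.H38.NP Pool.Agent.Lead.Star

theorem Pool.Agent.Results.MP_21485e_lc.Hard.result (Δ : ℕ) (h : 2 ≤ Δ) :
    NPHardOn (Valid Δ) Cover :=
  (star_nph h).npHardOn
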